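import Mathlib

/-! # Power residues in extensions of finite fields, integral Bezout -/

set_option autoImplicit false

namespace Pool.Agent.N680.TH

/-- `p ≡ 1` modulo `ℓ`, and `t` is not an `ℓ`-th power modulo `p` -/
def NR (ℓ : ℕ) (t : ℤ) (p : ℕ) : Prop :=
  (t : ZMod p) ≠ 0 ∧ ℓ ∣ p - 1 ∧ (t : ZMod p) ^ ((p - 1) / ℓ) ≠ 1

theorem pow_residue {ℓ p f : ℕ} (hℓ : ℓ.Prime) [hp : Fact p.Prime] (t : ZMod p) (ht : t ≠ 0)
    (hd : ℓ ∣ p - 1) (hn : t ^ ((p - 1) / ℓ) ≠ 1) (hf : ¬ ℓ ∣ f) :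
    ℓ ∣ p ^ f - 1 ∧ t ^ ((p ^ f - 1) / ℓ) ≠ 1 := by
  have hpp : p.Prime := hp.out
  obtain ⟨k, hk⟩ := hd
  have hk' : (p - 1) / ℓ = k := by
    rw [hk]
    exact Nat.mul_div_cancel_left k hℓ.pos
  rw [hk'] at hn
  have hgeom : p ^ f - 1 = ℓ * (k * ∑ i ∈ Finset.range f, p ^ i) := by
    have h1 := Nat.geomSum_eq hpp.two_le f
    have h2 : p - 1 ∣ p ^ f - 1 := by
      have := Nat.sub_dvd_pow_sub_pow p 1 f
      simpa using this
    have h3 : (p - 1) * ((p ^ f - 1) / (p - 1)) = p ^ f - 1 := Nat.mul_div_cancel' h2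
    rw [← h1, hk] at h3
    rw [← h3]
    ring
  refine ⟨⟨_, hgeom⟩, ?_⟩
  rw [hgeom, Nat.mul_div_cancel_left _ hℓ.pos, pow_mul]
  intro hcon
  have h1 : (t ^ k) ^ ℓ = 1 := by
    rw [← pow_mul, mul_comm, ← hk]
    exact ZMod.pow_card_sub_one_eq_one ht
  have hF : Fact ℓ.Prime := ⟨hℓ⟩
  have hord : orderOf (t ^ k) = ℓ := orderOf_eq_prime h1 hn
  have h2 : ℓ ∣ ∑ i ∈ Finset.range f, p ^ i := by
    rw [← hord]
    exact orderOf_dvd_of_pow_eq_one hcon
  apply hf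
  have h3 : ((p : ℕ) : ZMod ℓ) = 1 := by
    have h4 : (((p - 1 : ℕ) : ℕ) : ZMod ℓ) = 0 := (ZMod.natCast_eq_zero_iff _ _).2 ⟨k, hk⟩
    rw [Nat.cast_sub hpp.one_lt.le, Nat.cast_one] at h4
    exact sub_eq_zero.1 h4
  have h5 : ((∑ i ∈ Finset.range f, p ^ i : ℕ) : ZMod ℓ) = 0 := (ZMod.natCast_eq_zero_iff _ _).2 h2
  rw [Nat.cast_sum] at h5
  simp only [Nat.cast_pow, h3, one_pow, Finset.sum_const, Finset.card_range, nsmul_eq_mul,
    mul_one] at h5
  exact (ZMod.natCast_eq_zero_iff _ _).1 h5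

open Polynomial in
/-- integral Bezout relation for a separable polynomial -/
theorem exists_bezout (A : ℤ[X]) (hsep : (A.map (Int.castRingHom ℚ)).Separable) :
    ∃ (U V : ℤ[X]) (N : ℤ), N ≠ 0 ∧ U * A + V * derivative A = C N := by
  obtain ⟨u, v, huv⟩ := hsep
  obtain ⟨⟨n1, hn1⟩, h1⟩ := IsLocalization.integerNormalization_map_to_map (nonZeroDivisors ℤ) u
  obtain ⟨⟨n2, hn2⟩, h2⟩ := IsLocalization.integerNormalization_map_to_map (nonZeroDivisors ℤ) v
  set U := IsLocalization.integerNormalization (nonZeroDivisors ℤ) u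
  set V := IsLocalization.integerNormalization (nonZeroDivisors ℤ) v
  have hn1' : n1 ≠ 0 := nonZeroDivisors.ne_zero hn1
  have hn2' : n2 ≠ 0 := nonZeroDivisors.ne_zero hn2
  refine ⟨C n2 * U, C n1 * V, n1 * n2, mul_ne_zero hn1' hn2', ?_⟩
  have hinj : Function.Injective (Polynomial.map (Int.castRingHom ℚ)) :=
    map_injective _ (RingHom.injective_int _)
  apply hinj
  have e1 : U.map (Int.castRingHom ℚ) = C (n1 : ℚ) * u := by
    have : (algebraMap ℤ ℚ) = Int.castRingHom ℚ := rfl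
    rw [this] at h1
    rw [h1]
    simp [smul_eq_C_mul, Algebra.smul_def]
  have e2 : V.map (Int.castRingHom ℚ) = C (n2 : ℚ) * v := by
    have : (algebraMap ℤ ℚ) = Int.castRingHom ℚ := rfl
    rw [this] at h2
    rw [h2]
    simp [smul_eq_C_mul, Algebra.smul_def]
  have hC : ∀ n : ℤ, (C n : ℤ[X]).map (Int.castRingHom ℚ) = C (n : ℚ) := fun n => by
    rw [Polynomial.map_C]; rfl
  rw [Polynomial.map_add, Polynomial.map_mul, Polynomial.map_mul, Polynomial.map_mul,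
    Polynomial.map_mul, e1, e2, ← derivative_map, hC, hC, hC, Int.cast_mul, C_mul]
  linear_combination (C (n1 : ℚ) * C (n2 : ℚ)) * huv

open Polynomial in
/-- a polynomial which is separable over `ℚ` is separable modulo almost all primes -/
theorem sep_mod (A : ℤ[X]) (hsep : (A.map (Int.castRingHom ℚ)).Separable) :
    ∃ N : ℤ, N ≠ 0 ∧ ∀ (k : Type) [Field k], (N : k) ≠ 0 → (A.map (Int.castRingHom k)).Separable := by
  obtain ⟨U, V, N, hN, h⟩ := exists_bezout A hsep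
  refine ⟨N, hN, fun k _ hk => ?_⟩
  have h1 := congrArg (Polynomial.map (Int.castRingHom k)) h
  rw [Polynomial.map_add, Polynomial.map_mul, Polynomial.map_mul, Polynomial.map_C,
    ← derivative_map] at h1
  refine ⟨C ((N : k)⁻¹) * U.map (Int.castRingHom k), C ((N : k)⁻¹) * V.map (Int.castRingHom k), ?_⟩
  rw [mul_assoc, mul_assoc, ← mul_add, h1, ← C_mul, eq_intCast, inv_mul_cancel₀ hk, C_1]

end Pool.Agent.N680.TH
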