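import Mathlib

/-! # Automorphisms which move two radicals, and power residues modulo `p` -/

set_option autoImplicit false

namespace Pool.Agent.N680.TH

open Polynomial NumberField

/-- an integer which is an `ℓ`-th power of a rational number is an `ℓ`-th power of an integer -/
theorem int_of_rat {ℓ : ℕ} (hℓ : 0 < ℓ) (t : ℤ) (q : ℚ) (h : q ^ ℓ = t) : ∃ c : ℤ, c ^ ℓ = t := by
  have h1 : IsIntegral ℤ (q ^ ℓ) := by
    rw [h]
    exact isIntegral_algebraMap (R := ℤ) (x := t)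
  have h2 : IsIntegral ℤ q := h1.of_pow hℓ
  obtain ⟨c, hc⟩ := IsIntegrallyClosed.isIntegral_iff.1 h2
  refine ⟨c, ?_⟩
  have h3 : ((c : ℤ) : ℚ) = q := hc
  rw [← h3] at h
  exact_mod_cast h

variable {L : Type} [Field L] [NumberField L] [IsGalois ℚ L]

theorem exists_g {ℓ : ℕ} [hℓ : Fact ℓ.Prime] {ζ r : L} (hζ : IsPrimitiveRoot ζ ℓ) (t : ℤ)
    (ht : ∀ c : ℤ, c ^ ℓ ≠ t) (hr : r ^ ℓ = t) : ∃ g : Gal(L/ℚ), g ζ = ζ ∧ g r ≠ r := by
  have hp : ℓ.Prime := hℓ.out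
  by_contra hcon
  push Not at hcon
  have h1 : r ∈ IntermediateField.adjoin ℚ {ζ} := by
    rw [← IsGalois.fixedField_fixingSubgroup (IntermediateField.adjoin ℚ {ζ})]
    rintro ⟨g, hg⟩
    exact hcon g (hg ⟨ζ, IntermediateField.mem_adjoin_simple_self ℚ ζ⟩)
  set N : ℚ := Algebra.norm ℚ (⟨r, h1⟩ : IntermediateField.adjoin ℚ {ζ}) with hN
  have h2 : N ^ ℓ = (t : ℚ) ^ (ℓ - 1) := by
    have e1 : (⟨r, h1⟩ : IntermediateField.adjoin ℚ {ζ}) ^ ℓ =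
        algebraMap ℚ (IntermediateField.adjoin ℚ {ζ}) (t : ℚ) := by
      apply Subtype.ext
      have : ((⟨r, h1⟩ : IntermediateField.adjoin ℚ {ζ}) ^ ℓ : IntermediateField.adjoin ℚ {ζ}).1 =
        r ^ ℓ := rfl
      rw [this, hr]
      simp
    rw [hN, ← map_pow, e1, Algebra.norm_algebraMap]
    congr 1
    have e2 : IsIntegral ℚ ζ := Algebra.IsIntegral.isIntegral ζ
    rw [IntermediateField.adjoin.finrank e2, ← cyclotomic_eq_minpoly_rat hζ hp.pos,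
      natDegree_cyclotomic, Nat.totient_prime hp]
  have ht0 : (t : ℚ) ≠ 0 := by
    intro h
    apply ht 0
    rw [zero_pow hp.pos.ne']
    exact_mod_cast h.symm
  have hN0 : N ≠ 0 := by
    intro h
    rw [h, zero_pow hp.pos.ne'] at h2
    exact pow_ne_zero _ ht0 h2.symm
  have h3 : ((t : ℚ) / N) ^ ℓ = t := by
    rw [div_pow, h2, div_eq_iff (pow_ne_zero _ ht0)]
    rw [← pow_succ', Nat.sub_add_cancel hp.one_lt.le]
  obtain ⟨c, hc⟩ := int_of_rat hp.pos t _ h3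
  exact ht c hc

theorem exists_g2 {ℓ : ℕ} [hℓ : Fact ℓ.Prime] {ζ r₁ r₂ : L} (hζ : IsPrimitiveRoot ζ ℓ)
    (t₁ t₂ : ℤ) (h₁ : ∀ c : ℤ, c ^ ℓ ≠ t₁) (h₂ : ∀ c : ℤ, c ^ ℓ ≠ t₂) (hr₁ : r₁ ^ ℓ = t₁)
    (hr₂ : r₂ ^ ℓ = t₂) : ∃ g : Gal(L/ℚ), g ζ = ζ ∧ g r₁ ≠ r₁ ∧ g r₂ ≠ r₂ := by
  obtain ⟨g₁, a1, a2⟩ := exists_g hζ t₁ h₁ hr₁
  obtain ⟨g₂, b1, b2⟩ := exists_g hζ t₂ h₂ hr₂
  by_cases c1 : g₁ r₂ = r₂
  · by_cases c2 : g₂ r₁ = r₁
    · refine ⟨g₁ * g₂, ?_, ?_, ?_⟩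
      · rw [AlgEquiv.mul_apply, b1, a1]
      · rw [AlgEquiv.mul_apply, c2]
        exact a2
      · rw [AlgEquiv.mul_apply]
        intro h
        apply b2
        apply g₁.injective
        rw [h, c1]
    · exact ⟨g₂, b1, c2, b2⟩
  · exact ⟨g₁, a1, a2, c1⟩

omit [IsGalois ℚ L] in
/-- the residue of `t` modulo `p` -/
theorem not_res {ℓ : ℕ} [hℓ : Fact ℓ.Prime] {ζ r : L} (hζ : IsPrimitiveRoot ζ ℓ) (t : ℤ)
    (hr : r ^ ℓ = t) {g : Gal(L/ℚ)} (hg : g ζ = ζ) (hgr : g r ≠ r) {p : ℕ} [hp : Fact p.Prime]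
    (hpt : (t : ZMod p) ≠ 0) (hpl : (ℓ : ZMod p) ≠ 0) {k : Type} [Field k] [Algebra (ZMod p) k]
    (φ : 𝓞 L →+* k) (hφ : ∀ x : 𝓞 L, φ (g • x) = φ x ^ p) :
    ℓ ∣ p - 1 ∧ (t : ZMod p) ^ ((p - 1) / ℓ) ≠ 1 := by
  have hlp : ℓ.Prime := hℓ.out
  have hpp : p.Prime := hp.out
  have hchar : CharP k p := charP_of_injective_algebraMap (algebraMap (ZMod p) k).injective p
  have hζi : IsIntegral ℤ ζ := hζ.isIntegral hlp.pos
  have hri : IsIntegral ℤ r := by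
    refine IsIntegral.of_pow hlp.pos ?_
    rw [hr]
    exact isIntegral_algebraMap (R := ℤ) (x := t)
  obtain ⟨Z, hZ⟩ : ∃ Z : 𝓞 L, (Z : L) = ζ := ⟨⟨ζ, hζi⟩, rfl⟩
  obtain ⟨R, hR⟩ : ∃ R : 𝓞 L, (R : L) = r := ⟨⟨r, hri⟩, rfl⟩
  have hsm : ∀ x : 𝓞 L, ((g • x : 𝓞 L) : L) = g (x : L) := fun x => rfl
  have cpow : ∀ (x : 𝓞 L) (n : ℕ), ((x ^ n : 𝓞 L) : L) = (x : L) ^ n := fun _ _ => rfl
  have cmul : ∀ x y : 𝓞 L, ((x * y : 𝓞 L) : L) = (x : L) * (y : L) := fun _ _ => rfl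
  have cint : ∀ n : ℤ, (((n : ℤ) : 𝓞 L) : L) = (n : L) := fun n => map_intCast (algebraMap (𝓞 L) L) n
  -- the root of unity
  have hZℓ : φ Z ^ ℓ = 1 := by
    rw [← map_pow, ← map_one φ]
    congr 1
    apply RingOfIntegers.ext
    rw [cpow, hZ]
    exact hζ.pow_eq_one
  have hZ1 : φ Z ≠ 1 := by
    intro h
    have h1 : ∑ i ∈ Finset.range ℓ, Z ^ i = 0 := by
      apply RingOfIntegers.ext
      have e1 : ((∑ i ∈ Finset.range ℓ, Z ^ i : 𝓞 L) : L) = ∑ i ∈ Finset.range ℓ, (Z : L) ^ i := by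
        exact (map_sum (algebraMap (𝓞 L) L) _ _).trans (Finset.sum_congr rfl fun i _ => cpow Z i)
      rw [e1, hZ]
      exact hζ.geom_sum_eq_zero hlp.one_lt
    have h2 := congrArg φ h1
    rw [map_sum, map_zero] at h2
    simp only [map_pow, h, one_pow, Finset.sum_const, Finset.card_range, nsmul_eq_mul, mul_one] at h2
    apply hpl
    apply (algebraMap (ZMod p) k).injective
    rw [map_natCast, map_zero]
    exact h2
  have hord : orderOf (φ Z) = ℓ := orderOf_eq_prime hZℓ hZ1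
  have hZ0 : φ Z ≠ 0 := by
    intro h
    rw [h, zero_pow hlp.pos.ne'] at hZℓ
    exact zero_ne_one hZℓ
  have hZp : φ Z ^ (p - 1) = 1 := by
    have h1 : φ Z = φ Z ^ p := by
      rw [← hφ]
      congr 1
      apply RingOfIntegers.ext
      rw [hsm, hZ, hg]
    have h2 : φ Z ^ (p - 1) * φ Z = 1 * φ Z := by
      rw [← pow_succ, Nat.sub_add_cancel hpp.one_lt.le, ← h1, one_mul]
    exact mul_right_cancel₀ hZ0 h2
  have hdvd : ℓ ∣ p - 1 := by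
    rw [← hord]
    exact orderOf_dvd_of_pow_eq_one hZp
  refine ⟨hdvd, fun hcon => ?_⟩
  -- the radical
  have ht0 : (t : L) ≠ 0 := by
    intro h
    apply hpt
    have : t = 0 := by exact_mod_cast h
    rw [this, Int.cast_zero]
  have hr0 : r ≠ 0 := by
    intro h
    rw [h, zero_pow hlp.pos.ne'] at hr
    exact ht0 hr.symm
  have h1 : (g r / r) ^ ℓ = 1 := by
    rw [div_pow, ← map_pow, hr, map_intCast, div_self ht0]
  have : NeZero ℓ := ⟨hlp.pos.ne'⟩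
  obtain ⟨i, hi, hi2⟩ := hζ.eq_pow_of_pow_eq_one h1
  have hi0 : i ≠ 0 := by
    intro h
    apply hgr
    rw [h, pow_zero] at hi2
    exact (div_eq_one_iff_eq hr0).1 hi2.symm
  have h2 : g • R = Z ^ i * R := by
    apply RingOfIntegers.ext
    rw [hsm, hR, cmul, cpow, hZ, hR, hi2, div_mul_cancel₀ _ hr0]
  have hRℓ : φ R ^ ℓ = ((t : ℤ) : k) := by
    rw [← map_pow, ← map_intCast φ]
    congr 1
    apply RingOfIntegers.ext
    rw [cpow, hR, hr, cint]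
  have htk : ((t : ℤ) : k) ≠ 0 := by
    intro h
    apply hpt
    apply (algebraMap (ZMod p) k).injective
    rw [map_intCast, map_zero]
    exact h
  have hR0 : φ R ≠ 0 := by
    intro h
    rw [h, zero_pow hlp.pos.ne'] at hRℓ
    exact htk hRℓ.symm
  have h3 : φ R ^ (p - 1) = φ Z ^ i := by
    have h4 := hφ R
    rw [h2, map_mul, map_pow] at h4
    have h5 : φ R ^ (p - 1) * φ R = φ Z ^ i * φ R := by
      rw [← pow_succ, Nat.sub_add_cancel hpp.one_lt.le, ← h4]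
    exact mul_right_cancel₀ hR0 h5
  obtain ⟨s, hs⟩ := hdvd
  have h4 : (p - 1) / ℓ = s := by
    rw [hs]
    exact Nat.mul_div_cancel_left s hlp.pos
  rw [h4] at hcon
  have h5 : ((t : ℤ) : k) ^ s = 1 := by
    have h6 := congrArg (algebraMap (ZMod p) k) hcon
    rwa [map_pow, map_intCast, map_one] at h6
  rw [hs, pow_mul, hRℓ, h5] at h3
  have h6 : ℓ ∣ i := by
    rw [← hord]
    exact orderOf_dvd_of_pow_eq_one h3.symm
  exact hi0 (Nat.eq_zero_of_dvd_of_lt h6 hi)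

omit [NumberField L] [IsGalois ℚ L] in
/-- roots in a field where the polynomial splits -/
theorem roots_of {ℓ : ℕ} [hℓ : Fact ℓ.Prime] [CharZero L] (t₁ t₂ : ℤ)
    (hsp : ((cyclotomic ℓ ℤ * ((X ^ ℓ - C t₁) * (X ^ ℓ - C t₂))).map (algebraMap ℤ L)).Splits) :
    ∃ ζ r₁ r₂ : L, IsPrimitiveRoot ζ ℓ ∧ r₁ ^ ℓ = t₁ ∧ r₂ ^ ℓ = t₂ := by
  have hlp : ℓ.Prime := hℓ.out
  have hm : ∀ t : ℤ, (X ^ ℓ - C t : ℤ[X]).Monic := fun t => monic_X_pow_sub_C t hlp.pos.ne'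
  have hmon : (cyclotomic ℓ ℤ * ((X ^ ℓ - C t₁) * (X ^ ℓ - C t₂))).Monic :=
    (cyclotomic.monic ℓ ℤ).mul ((hm t₁).mul (hm t₂))
  have hmap : (cyclotomic ℓ ℤ * ((X ^ ℓ - C t₁) * (X ^ ℓ - C t₂))).map (algebraMap ℤ L) ≠ 0 :=
    (hmon.map _).ne_zero
  have h0 : ((cyclotomic ℓ ℤ).map (algebraMap ℤ L)).Splits :=
    hsp.of_dvd hmap (Polynomial.map_dvd _ (dvd_mul_right _ _))
  have h1 : ((X ^ ℓ - C t₁ : ℤ[X]).map (algebraMap ℤ L)).Splits :=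
    hsp.of_dvd hmap (Polynomial.map_dvd _ ((dvd_mul_right _ _).trans (dvd_mul_left _ _)))
  have h2 : ((X ^ ℓ - C t₂ : ℤ[X]).map (algebraMap ℤ L)).Splits :=
    hsp.of_dvd hmap (Polynomial.map_dvd _ ((dvd_mul_left _ _).trans (dvd_mul_left _ _)))
  have hroot : ∀ t : ℤ, ((X ^ ℓ - C t : ℤ[X]).map (algebraMap ℤ L)).Splits →
      ∃ r : L, r ^ ℓ = t := by
    intro t ht
    obtain ⟨r, hr⟩ := ht.exists_eval_eq_zero (by
      rw [(hm t).degree_map, degree_X_pow_sub_C hlp.pos]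
      exact_mod_cast hlp.pos.ne')
    refine ⟨r, ?_⟩
    simpa [sub_eq_zero] using hr
  obtain ⟨ζ, hζ⟩ := h0.exists_eval_eq_zero (by
    rw [(cyclotomic.monic ℓ ℤ).degree_map]
    exact (degree_cyclotomic_pos _ _ hlp.pos).ne')
  obtain ⟨r₁, hr₁⟩ := hroot t₁ h1
  obtain ⟨r₂, hr₂⟩ := hroot t₂ h2
  refine ⟨ζ, r₁, r₂, ?_, hr₁, hr₂⟩
  have : NeZero ((ℓ : ℕ) : L) := ⟨by exact_mod_cast hlp.pos.ne'⟩
  rw [map_cyclotomic] at hζ
  exact (isRoot_cyclotomic_iff).1 hζ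

end Pool.Agent.N680.TH
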