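import Pool.Agent.TH888.B1.Roots
import Pool.Agent.N680.TH.Gal
import Pool.Agent.N680.TH.Arith

/-! # Two integers which are not `ℓ`-th powers: primes modulo which both are not `ℓ`-th powers -/

set_option autoImplicit false

namespace Pool.Agent.N680.TH

open Polynomial NumberField Pool.Agent.W401.Cheb Pool.Agent.TH888.B1

theorem exists_split {K₀ : Type} [Field K₀] (F : K₀[X]) : ∃ (L : Type) (_ : Field L)
    (_ : Algebra K₀ L), Normal K₀ L ∧ FiniteDimensional K₀ L ∧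
      (F.map (algebraMap K₀ L)).Splits := by
  refine ⟨F.SplittingField, inferInstance, inferInstance, ?_, ?_, ?_⟩
  · exact Normal.of_isSplittingField F
  · infer_instance
  · exact SplittingField.splits F

theorem exists_nf (F : ℤ[X]) : ∃ (L : Type) (_ : Field L) (_ : NumberField L) (_ : IsGalois ℚ L),
    (F.map (algebraMap ℤ L)).Splits := by
  obtain ⟨L, _, hA, hn, hf, hs⟩ := exists_split (F.map (algebraMap ℤ ℚ))
  have hs' : (F.map (algebraMap ℤ L)).Splits := by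
    rw [Polynomial.map_map] at hs
    have h2 : (algebraMap ℚ L).comp (algebraMap ℤ ℚ) = algebraMap ℤ L := RingHom.ext_int _ _
    rw [← h2]
    exact hs
  have hcz : CharZero L := charZero_of_injective_algebraMap (algebraMap ℚ L).injective
  have h : hA = DivisionRing.toRatAlgebra := Subsingleton.elim _ _
  subst h
  have hnf : NumberField L := NumberField.mk
  have hgal : IsGalois ℚ L := IsGalois.mk
  exact ⟨L, inferInstance, hnf, hgal, hs'⟩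

theorem nr_diverges (ℓ : ℕ) [hℓ : Fact ℓ.Prime] (t₁ t₂ : ℤ) (h₁ : ∀ c : ℤ, c ^ ℓ ≠ t₁)
    (h₂ : ∀ c : ℤ, c ^ ℓ ≠ t₂) :
    ¬ Summable (fun n : ℕ => {p : ℕ | p.Prime ∧ NR ℓ t₁ p ∧ NR ℓ t₂ p}.indicator
      (fun n : ℕ => (1 : ℝ) / n) n) := by
  have hlp : ℓ.Prime := hℓ.out
  have h0 : ∀ t : ℤ, (∀ c : ℤ, c ^ ℓ ≠ t) → t ≠ 0 := by
    rintro t ht rfl
    exact ht 0 (zero_pow hlp.pos.ne')
  obtain ⟨L, _, _, _, hs⟩ := exists_nf (cyclotomic ℓ ℤ * ((X ^ ℓ - C t₁) * (X ^ ℓ - C t₂)))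
  obtain ⟨ζ, r₁, r₂, hζ, hr₁, hr₂⟩ := roots_of t₁ t₂ hs
  obtain ⟨g, hg, hg₁, hg₂⟩ := exists_g2 hζ t₁ t₂ h₁ h₂ hr₁ hr₂
  set M : ℕ := ℓ * (t₁.natAbs * t₂.natAbs) with hM
  have hM0 : M ≠ 0 := mul_ne_zero hlp.pos.ne' (mul_ne_zero (Int.natAbs_ne_zero.2 (h0 _ h₁))
    (Int.natAbs_ne_zero.2 (h0 _ h₂)))
  have hfin : {p : ℕ | p ∣ M}.Finite := by
    refine (Set.finite_Iic M).subset fun p hp => ?_
    exact Nat.le_of_dvd (Nat.pos_of_ne_zero hM0) hp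
  refine diverges_mono ?_ (diverges_diff hfin (frob_diverges L g))
  rintro p ⟨⟨hp, hx⟩, hpM⟩
  have hpf : Fact p.Prime := ⟨hp⟩
  have hpM' : ¬ p ∣ M := hpM
  obtain ⟨φ, hφ⟩ := exists_hom g hp hx
  have hpl : (ℓ : ZMod p) ≠ 0 := by
    rw [Ne, ZMod.natCast_eq_zero_iff]
    exact fun h => hpM' (h.trans (dvd_mul_right _ _))
  have hp1 : (t₁ : ZMod p) ≠ 0 := by
    rw [Ne, ZMod.intCast_zmod_eq_zero_iff_dvd, Int.natCast_dvd]
    exact fun h => hpM' (h.trans ((dvd_mul_right _ _).trans (dvd_mul_left _ _)))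
  have hp2 : (t₂ : ZMod p) ≠ 0 := by
    rw [Ne, ZMod.intCast_zmod_eq_zero_iff_dvd, Int.natCast_dvd]
    exact fun h => hpM' (h.trans ((dvd_mul_left _ _).trans (dvd_mul_left _ _)))
  exact ⟨hp, ⟨hp1, not_res hζ t₁ hr₁ hg hg₁ hp1 hpl φ hφ⟩, ⟨hp2, not_res hζ t₂ hr₂ hg hg₂ hp2 hpl φ hφ⟩⟩

end Pool.Agent.N680.TH
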