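import Pool.Agent.N666.TM.Diag

/-! # Generalised polynomials and sets of primes with divergent sum of reciprocals -/

set_option autoImplicit false
set_option linter.unusedSectionVars false

namespace Pool.Agent.N680.TH

open Finset Filter Pool.Agent.Y722.HS Pool.Agent.N666.TM
open Pool.Agent.N666.VE (primes)

/-- `p` divides `n` exactly once -/
def Once (p : ℕ) (n : ℤ) : Prop := (p : ℤ) ∣ n ∧ ¬ (p : ℤ) ^ 2 ∣ n

theorem null_union {S : ℕ → Finset ℕ} {A B : Set ℕ} (hA : NullIn S A) (hB : NullIn S B) :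
    NullIn S (A ∪ B) := by
  intro ε hε
  obtain ⟨N₁, h1⟩ := hA (ε / 2) (by positivity)
  obtain ⟨N₂, h2⟩ := hB (ε / 2) (by positivity)
  refine ⟨max N₁ N₂, fun N hN => ?_⟩
  have a1 := h1 N ((le_max_left _ _).trans hN)
  have a2 := h2 N ((le_max_right _ _).trans hN)
  have e : {t : ℕ | t ∈ S N ∧ t ∈ A ∪ B} = {t : ℕ | t ∈ S N ∧ t ∈ A} ∪ {t : ℕ | t ∈ S N ∧ t ∈ B} := by
    ext t
    simp only [Set.mem_ofPred_eq, Set.mem_union]
    tauto
  rw [e]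
  have h3 : ((({t : ℕ | t ∈ S N ∧ t ∈ A} ∪ {t : ℕ | t ∈ S N ∧ t ∈ B}).ncard : ℕ) : ℝ) ≤
      ({t : ℕ | t ∈ S N ∧ t ∈ A}.ncard : ℕ) + ({t : ℕ | t ∈ S N ∧ t ∈ B}.ncard : ℕ) := by
    exact_mod_cast Set.ncard_union_le _ _
  linarith

theorem null_iUnion {S : ℕ → Finset ℕ} {B : ℕ → Set ℕ} (h : ∀ i, NullIn S (B i)) (k : ℕ) :
    NullIn S {t | ∃ i ≤ k, t ∈ B i} := by
  induction k with
  | zero =>
    have e : {t | ∃ i ≤ 0, t ∈ B i} = B 0 := by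
      ext t
      simp
    rw [e]
    exact h 0
  | succ k ih =>
    have e : {t | ∃ i ≤ k + 1, t ∈ B i} = {t | ∃ i ≤ k, t ∈ B i} ∪ B (k + 1) := by
      ext t
      constructor
      · rintro ⟨i, hi, ht⟩
        rcases Nat.lt_or_ge k i with h1 | h1
        · right
          have : i = k + 1 := by omega
          rwa [this] at ht
        · exact Or.inl ⟨i, h1, ht⟩
      · rintro (⟨i, hi, ht⟩ | ht)
        · exact ⟨i, by omega, ht⟩
        · exact ⟨k + 1, le_rfl, ht⟩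
    rw [e]
    exact null_union ih (h (k + 1))

/-- Almost all members of a well distributed sequence are divisible exactly once by a prime of a set
of primes with divergent sum of reciprocals. -/
theorem null_of_div {S : ℕ → Finset ℕ} {x : ℕ → Unit → ℤ} {κ : ℝ} (hκ : 0 < κ)
    (hw : ∃ N₀ : ℕ, ∀ N : ℕ, N₀ ≤ N → ∀ H : ℕ, (H : ℝ) ≤ (N : ℝ) ^ κ → Well (S N) x H)
    (Ps : Set ℕ) (hPs : ∀ p ∈ Ps, p.Prime)
    (hdiv : ¬ Summable (fun n : ℕ => Ps.indicator (fun n : ℕ => (1 : ℝ) / n) n)) :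
    NullIn S {n | ¬ ∃ p ∈ Ps, Once p (x n ())} := by
  classical
  intro ε hε
  obtain ⟨N₁, hN₁⟩ := hw
  obtain ⟨y, hy⟩ : ∃ y : ℕ, 2 * (2 / (ε / 2)) ≤ ∑ p ∈ Finset.range y,
      Ps.indicator (fun n : ℕ => (1 : ℝ) / n) p := by
    have hnn : ∀ p : ℕ, 0 ≤ Ps.indicator (fun n : ℕ => (1 : ℝ) / n) p := by
      intro p
      apply Set.indicator_nonneg
      intro _ _
      positivity
    have ht := (not_summable_iff_tendsto_nat_atTop_of_nonneg hnn).mp hdiv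
    exact (ht.eventually_ge_atTop _).exists
  set P : Finset ℕ := (Finset.range y).filter (fun p => p ∈ Ps) with hP
  have hPsum : 2 * (2 / (ε / 2)) ≤ ∑ p ∈ P, 1 / (p : ℝ) := by
    rw [hP, Finset.sum_filter]
    refine hy.trans (le_of_eq (Finset.sum_congr rfl fun p _ => ?_))
    by_cases h : p ∈ Ps
    · rw [Set.indicator_of_mem h, if_pos h]
    · rw [Set.indicator_of_notMem h, if_neg h]
  have hPm : ∀ p ∈ P, p < y ∧ p ∈ Ps := by
    intro p hp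
    rw [hP, Finset.mem_filter, Finset.mem_range] at hp
    exact hp
  have hev : ∀ᶠ N : ℕ in atTop, ((y ^ 4 + ⌈4 / (ε / 2)⌉₊ : ℕ) : ℝ) ≤ (N : ℝ) ^ κ := by
    have h1 : Tendsto (fun N : ℕ => (N : ℝ) ^ κ) atTop atTop :=
      (tendsto_rpow_atTop hκ).comp tendsto_natCast_atTop_atTop
    exact h1.eventually_ge_atTop _
  obtain ⟨N₂, hN₂⟩ := eventually_atTop.mp hev
  refine ⟨max N₁ N₂, fun N hN => ?_⟩
  set H : ℕ := y ^ 4 + ⌈4 / (ε / 2)⌉₊ with hH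
  have hws := hN₁ N ((le_max_left _ _).trans hN) H (hN₂ N ((le_max_right _ _).trans hN))
  have hμ : 2 / (ε / 2) ≤ ∑ p ∈ P, dens (Om () p) := by
    calc 2 / (ε / 2) = 1 / 2 * (2 * (2 / (ε / 2))) := by ring
      _ ≤ 1 / 2 * ∑ p ∈ P, 1 / (p : ℝ) := by gcongr
      _ = ∑ p ∈ P, 1 / 2 * (1 / (p : ℝ)) := by rw [Finset.mul_sum]
      _ ≤ _ := Finset.sum_le_sum fun p hp => by
        have h1 := dens_Om () p (hPs p (hPm p hp).2).two_le
        rw [Fintype.card_unit, pow_one] at h1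
        exact h1
  have hμ0 : 0 < ∑ p ∈ P, dens (Om () p) := lt_of_lt_of_le (by positivity) hμ
  have h1 := turan hws P (fun p => p ^ 2) (fun p hp => Nat.pos_of_ne_zero (by
      have := (hPs p (hPm p hp).2).pos
      positivity)) (fun p hp p' hp' hne =>
      Nat.Coprime.pow 2 2 ((Nat.coprime_primes (hPs p (hPm p hp).2) (hPs p' (hPm p' hp').2)).mpr hne))
    (fun p hp p' hp' => by
      have a1 : p ^ 2 ≤ y ^ 2 := Nat.pow_le_pow_left (hPm p hp).1.le 2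
      have a2 : p' ^ 2 ≤ y ^ 2 := Nat.pow_le_pow_left (hPm p' hp').1.le 2
      calc p ^ 2 * p' ^ 2 ≤ y ^ 2 * y ^ 2 := Nat.mul_le_mul a1 a2
        _ = y ^ 4 := by ring
        _ ≤ 2 * H + 1 := by omega)
    (fun p => Om () p) _ rfl hμ0
  have h2 : 2 / (∑ p ∈ P, dens (Om () p)) ≤ ε / 2 := by
    rw [div_le_iff₀ hμ0]
    rw [div_le_iff₀ (by positivity)] at hμ
    linarith
  have h3 : (4 : ℝ) / (2 * H + 1) ≤ ε / 2 := by
    have h4 : 4 / (ε / 2) ≤ (H : ℝ) :=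
      (Nat.le_ceil _).trans (by exact_mod_cast (by omega : ⌈4 / (ε / 2)⌉₊ ≤ H))
    rw [div_le_iff₀ (by positivity)] at h4
    rw [div_le_iff₀ (by positivity)]
    nlinarith
  have hsub : {n : ℕ | n ∈ S N ∧ n ∈ {n | ¬ ∃ p ∈ Ps, Once p (x n ())}} ⊆
      ↑((S N).filter fun n => ∀ p ∈ P, red (p ^ 2) (x n) ∉ Om () p) := by
    rintro n ⟨hn, hn'⟩
    rw [Finset.mem_coe, Finset.mem_filter]
    refine ⟨hn, fun p hp hcon => hn' ⟨p, (hPm p hp).2, ?_⟩⟩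
    rw [mem_Om () p (hPs p (hPm p hp).2).one_lt.le] at hcon
    exact ⟨hcon.1, hcon.2.1⟩
  have h4 : ({n : ℕ | n ∈ S N ∧ n ∈ {n | ¬ ∃ p ∈ Ps, Once p (x n ())}}.ncard : ℝ) ≤
      (((S N).filter fun n => ∀ p ∈ P, red (p ^ 2) (x n) ∉ Om () p).card : ℝ) := by
    have := Set.ncard_le_ncard hsub (Finset.finite_toSet _)
    rw [Set.ncard_coe_finset] at this
    exact_mod_cast this
  refine h4.trans (h1.trans ?_)
  gcongr
  linarith

/-- One null set for countably many sets of primes. -/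
theorem one_null {F : Finset ℝ} {a : ℝ → ℝ} {c : ℝ}
    (h : c ∈ F ∧ (∀ t ∈ F, t ≤ c) ∧ 0 < c ∧ (∀ m : ℕ, c ≠ m) ∧ 0 < a c)
    {I : Type} [Countable I] (Ps : I → Set ℕ) (hPs : ∀ i, ∀ p ∈ Ps i, p.Prime)
    (hdiv : ∀ i, ¬ Summable (fun n : ℕ => (Ps i).indicator (fun n : ℕ => (1 : ℝ) / n) n)) :
    ∃ E : Set ℕ, NullIn (fun N => Ioc N (2 * N)) E ∧ NullIn primes E ∧
      ∀ i, {n : ℕ | n ∉ E ∧ ¬ ∃ p ∈ Ps i, Once p ⌊∑ t ∈ F, a t * (n : ℝ) ^ t⌋}.Finite := by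
  classical
  obtain ⟨⟨κ₁, hκ₁, g₁⟩, ⟨κ₂, hκ₂, g₂⟩⟩ := fl_well (ι := Unit) (F := fun _ => F) (a := fun _ => a)
    (c := fun _ => c) (fun _ => h) (fun _ _ _ => rfl)
  have hb : ∀ i, NullIn (fun N => Ioc N (2 * N))
      {n : ℕ | ¬ ∃ p ∈ Ps i, Once p ⌊∑ t ∈ F, a t * (n : ℝ) ^ t⌋} ∧ NullIn primes
      {n : ℕ | ¬ ∃ p ∈ Ps i, Once p ⌊∑ t ∈ F, a t * (n : ℝ) ^ t⌋} := fun i =>
    ⟨null_of_div hκ₁ g₁ (Ps i) (hPs i) (hdiv i), null_of_div hκ₂ g₂ (Ps i) (hPs i) (hdiv i)⟩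
  rcases isEmpty_or_nonempty I with hI | hI
  · refine ⟨∅, ?_, ?_, fun i => (hI.false i).elim⟩ <;>
    · intro ε hε
      refine ⟨0, fun N _ => ?_⟩
      simp only [Set.mem_empty_iff_false, and_false, Set.ofPred_false, Set.ncard_empty,
        Nat.cast_zero]
      positivity
  obtain ⟨e, he⟩ := exists_surjective_nat I
  set E : ℕ → Set ℕ := fun k => {n | ∃ i ≤ k,
    n ∈ {n : ℕ | ¬ ∃ p ∈ Ps (e i), Once p ⌊∑ t ∈ F, a t * (n : ℝ) ^ t⌋}} with hE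
  have hmono : Monotone E := by
    intro k k' hk n hn
    obtain ⟨i, hi, hn⟩ := hn
    exact ⟨i, hi.trans hk, hn⟩
  obtain ⟨E', h1, h2, h3⟩ := diag hmono (S₁ := fun N => Ioc N (2 * N)) (S₂ := primes)
    (fun N => subset_rfl) (fun N => filter_subset _ _) (fun k => null_iUnion (fun i => (hb (e i)).1) k)
    (fun k => null_iUnion (fun i => (hb (e i)).2) k)
  refine ⟨E', h1, h2, fun i => ?_⟩
  obtain ⟨k, rfl⟩ := he i
  refine (h3 k).subset ?_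
  rintro n ⟨hn, hn'⟩
  exact ⟨⟨k, le_rfl, hn'⟩, hn⟩

end Pool.Agent.N680.TH
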