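import Pool.Agent.N680.TH.Loc2
import Pool.Agent.N680.TH.Cheb
import Pool.Agent.N680.TH.Thin

/-! # One null set for all families of twists by rotations -/

set_option autoImplicit false

open Polynomial

namespace Pool.Agent.N680.TH

open Finset Pool.Agent.N666.TM Pool.Agent.TH888.B1
open Pool.Agent.N666.VE (primes)

theorem countable_poly : Countable ℤ[X] := by
  rw [← Cardinal.mk_le_aleph0_iff]
  refine (Polynomial.cardinalMk_le_max).trans ?_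
  simp

/-- the conditions on the family -/
structure Fam (ℓ j : ℕ) (g : ℤ[X]) (b : ℤ) : Prop where
  pr : ℓ.Prime
  sep : ((expand ℤ (ℓ ^ j) g).map (Int.castRingHom ℚ)).Separable
  b0 : b ≠ 0
  g0 : g ≠ 0
  n0 : ∀ c : ℤ, c ^ ℓ ≠ g.coeff 0 * b ^ (ℓ - 1)
  n1 : ℓ ∣ g.natDegree → ∀ c : ℤ, c ^ ℓ ≠ g.leadingCoeff * b ^ (ℓ - 1)

theorem good_diverges {ℓ j : ℕ} {g : ℤ[X]} {b : ℤ} (h : Fam ℓ j g b) :
    ¬ Summable (fun n : ℕ => {p : ℕ | GoodP ℓ j g b p}.indicator (fun n : ℕ => (1 : ℝ) / n) n) := by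
  have hF : Fact ℓ.Prime := ⟨h.pr⟩
  obtain ⟨N, hN, hsep⟩ := sep_mod _ h.sep
  obtain ⟨t₂, ht₂, hg⟩ : ∃ t₂ : ℤ, (∀ c : ℤ, c ^ ℓ ≠ t₂) ∧
      (ℓ ∣ g.natDegree → t₂ = g.leadingCoeff * b ^ (ℓ - 1)) := by
    by_cases hd : ℓ ∣ g.natDegree
    · exact ⟨_, h.n1 hd, fun _ => rfl⟩
    · exact ⟨_, h.n0, fun h => absurd h hd⟩
  set M : ℤ := ℓ * (g.leadingCoeff * (b * N)) with hM
  have hM0 : M ≠ 0 := mul_ne_zero (by exact_mod_cast h.pr.ne_zero)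
    (mul_ne_zero (leadingCoeff_ne_zero.2 h.g0) (mul_ne_zero h.b0 hN))
  have hfin : {p : ℕ | (p : ℤ) ∣ M}.Finite := by
    refine (Set.finite_Iic M.natAbs).subset fun p hp => ?_
    exact Nat.le_of_dvd (Int.natAbs_pos.2 hM0) (Int.natCast_dvd.1 hp)
  refine diverges_mono ?_ (diverges_diff hfin (nr_diverges ℓ _ t₂ h.n0 ht₂))
  rintro p ⟨⟨hp, h1, h2⟩, hpM⟩
  have hpM' : ¬ (p : ℤ) ∣ M := hpM
  refine ⟨hp, fun hd => hpM' (hd.mul_right _), fun hd => hpM' ((hd.mul_right _).mul_left _),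
    fun hd => hpM' (((hd.mul_right _).mul_left _).mul_left _), fun k _ hk => hsep k ?_, h1,
    fun hd => ?_⟩
  · intro h0
    have hpN : ¬ (p : ℤ) ∣ N := fun hd => hpM' (((hd.mul_left _).mul_left _).mul_left _)
    obtain ⟨u, w, huw⟩ := (Nat.prime_iff_prime_int.1 hp).coprime_iff_not_dvd.2 hpN
    have h3 := congrArg (Int.cast : ℤ → k) huw
    push_cast at h3
    rw [hk, h0, mul_zero, mul_zero, add_zero] at h3
    exact zero_ne_one h3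
  · rw [← hg hd]
    exact h2

/-- one null set for all families -/
theorem fin {F : Finset ℝ} {a : ℝ → ℝ} {c : ℝ}
    (h : c ∈ F ∧ (∀ t ∈ F, t ≤ c) ∧ 0 < c ∧ (∀ m : ℕ, c ≠ m) ∧ 0 < a c) :
    ∃ E : Set ℕ, NullIn (fun N => Ioc N (2 * N)) E ∧ NullIn primes E ∧
      ∀ (ℓ j : ℕ) (g : ℤ[X]) (b : ℤ), Fam ℓ j g b →
        {n : ℕ | n ∉ E ∧ ¬ ∃ p, GoodP ℓ j g b p ∧ Once p ⌊∑ t ∈ F, a t * (n : ℝ) ^ t⌋}.Finite := by
  have hcz := countable_poly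
  obtain ⟨E, h1, h2, h3⟩ := one_null h
    (fun q : {q : ℕ × ℕ × ℤ[X] × ℤ // Fam q.1 q.2.1 q.2.2.1 q.2.2.2} =>
      {p : ℕ | GoodP q.1.1 q.1.2.1 q.1.2.2.1 q.1.2.2.2 p}) (fun _ _ hp => hp.pr)
    (fun q => good_diverges q.2)
  refine ⟨E, h1, h2, fun ℓ j g b hF => ?_⟩
  exact h3 ⟨(ℓ, j, g, b), hF⟩

end Pool.Agent.N680.TH
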