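import Mathlib

/-! # A prime of a number field above `p` with ramification index and degree prime to `ℓ` -/

set_option autoImplicit false

namespace Pool.Agent.N680.TH

open NumberField IsDedekindDomain Ideal

theorem exists_prime (K : Type) [Field K] [NumberField K] {ℓ : ℕ}
    (hK : ¬ ℓ ∣ Module.finrank ℚ K) {p : ℕ} (hp : p.Prime) (a : ℤ) (ha : (p : ℤ) ∣ a)
    (ha2 : ¬ (p : ℤ) ^ 2 ∣ a) :
    ∃ (v : HeightOneSpectrum (𝓞 K)) (e f : ℕ), ¬ ℓ ∣ e ∧ ¬ ℓ ∣ f ∧ (p : 𝓞 K) ∈ v.asIdeal ∧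
      (a : 𝓞 K) ∈ v.asIdeal ^ e ∧ (a : 𝓞 K) ∉ v.asIdeal ^ (e + 1) ∧
      Nat.card (𝓞 K ⧸ v.asIdeal) = p ^ f := by
  classical
  set P0 : Ideal ℤ := span {(p : ℤ)} with hP0
  have hpp : Prime (p : ℤ) := Nat.prime_iff_prime_int.1 hp
  have hP0p : P0.IsPrime := (span_singleton_prime hpp.ne_zero).2 hpp
  have hP0b : P0 ≠ ⊥ := by
    rw [hP0, Ne, span_singleton_eq_bot]
    exact hpp.ne_zero
  have hfin : (P0.primesOver (𝓞 K)).Finite := Algebra.QuasiFinite.finite_primesOver P0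
  letI : Fintype (P0.primesOver (𝓞 K)) := hfin.fintype
  have hsum := sum_ramification_inertia_eq_finrank P0 (𝓞 K)
  rw [RingOfIntegers.rank] at hsum
  obtain ⟨q, hq⟩ : ∃ q : P0.primesOver (𝓞 K), ¬ ℓ ∣ q.1.ramificationIdx ℤ * q.1.inertiaDeg ℤ := by
    by_contra hcon
    push Not at hcon
    apply hK
    rw [← hsum]
    exact Finset.dvd_sum fun q _ => hcon q
  have hqp : q.1.IsPrime := q.2.1
  have hqo : q.1.LiesOver P0 := q.2.2
  have hmap : P0.map (algebraMap ℤ (𝓞 K)) = span {(p : 𝓞 K)} := by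
    rw [hP0, map_span, Set.image_singleton]
    congr 1
    simp
  have hmap0 : P0.map (algebraMap ℤ (𝓞 K)) ≠ ⊥ := by
    rw [hmap, Ne, span_singleton_eq_bot]
    exact_mod_cast hp.ne_zero
  have hle : P0.map (algebraMap ℤ (𝓞 K)) ≤ q.1 := map_le_of_le_comap (q.1.over_def P0).le
  have hqb : q.1 ≠ ⊥ := ne_bot_of_le_ne_bot hmap0 hle
  have hpq : (p : 𝓞 K) ∈ q.1 := by
    apply hle
    rw [hmap]
    exact mem_span_singleton_self _
  have hpr : Prime q.1 := prime_of_isPrime hqb hqp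
  have hmul : q.1.ramificationIdx ℤ = multiplicity q.1 (P0.map (algebraMap ℤ (𝓞 K))) :=
    IsDedekindDomain.ramificationIdx_eq_multiplicity P0 q.1 hmap0
  have hfm : FiniteMultiplicity q.1 (P0.map (algebraMap ℤ (𝓞 K))) :=
    FiniteMultiplicity.of_prime_left hpr hmap0
  have hd1 : q.1 ^ (q.1.ramificationIdx ℤ) ∣ P0.map (algebraMap ℤ (𝓞 K)) := by
    rw [hmul]
    exact pow_multiplicity_dvd _ _
  have hd2 : ¬ q.1 ^ (q.1.ramificationIdx ℤ + 1) ∣ P0.map (algebraMap ℤ (𝓞 K)) := by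
    rw [hmul]
    exact hfm.not_pow_dvd_of_multiplicity_lt (Nat.lt_succ_self _)
  obtain ⟨u, hu⟩ := ha
  have hpu : ¬ (p : ℤ) ∣ u := by
    rintro ⟨w, rfl⟩
    apply ha2
    rw [hu]
    exact ⟨w, by ring⟩
  have huq : (u : 𝓞 K) ∉ q.1 := by
    intro h
    apply hpu
    have h1 : u ∈ P0 := by
      rw [q.1.over_def P0, mem_comap]
      simpa using h
    rwa [hP0, mem_span_singleton] at h1
  refine ⟨⟨q.1, hqp, hqb⟩, q.1.ramificationIdx ℤ, q.1.inertiaDeg ℤ, fun h => hq (h.mul_right _),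
    fun h => hq (h.mul_left _), hpq, ?_, ?_, ?_⟩
  · change (a : 𝓞 K) ∈ q.1 ^ _
    rw [hu, Int.cast_mul]
    refine Ideal.mul_mem_right _ _ ?_
    apply Ideal.le_of_dvd hd1
    rw [hmap]
    simpa using mem_span_singleton_self (p : 𝓞 K)
  · change (a : 𝓞 K) ∉ q.1 ^ _
    intro h
    apply hd2
    rw [hmap]
    have h1 : q.1 ^ (q.1.ramificationIdx ℤ + 1) ∣ span {(p : 𝓞 K)} * span {(u : 𝓞 K)} := by
      rw [span_singleton_mul_span_singleton, dvd_span_singleton]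
      rw [hu] at h
      simpa using h
    refine hpr.pow_dvd_of_dvd_mul_right _ ?_ h1
    rw [dvd_span_singleton]
    exact huq
  · change Nat.card (𝓞 K ⧸ q.1) = _
    have h1 := absNorm_pow_inertiaDeg P0 q.1
    have h2 : absNorm P0 = p := by
      rw [hP0, absNorm_span_singleton]
      simp
    rw [h2] at h1
    rw [h1, absNorm_apply, Submodule.cardQuot_apply]

end Pool.Agent.N680.TH
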