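import Pool.Agent.R925.L.NF
import Pool.Agent.N680.TH.Arith
import Pool.Agent.N680.TH.Prm

/-! # A local obstruction against sections of twists by rotations -/

set_option autoImplicit false
set_option linter.all false

open Polynomial NumberField IsDedekindDomain

namespace Pool.Agent.N680.TH

open Pool.Agent.Y157.PS Pool.Agent.R925.L

section ints

variable {κ : Type} [Field κ] {V : ValuationSubring κ} {p : ℕ}

theorem isU_int (hp : p.Prime) (hpV : (p : κ) ∈ V.nonunits) (n : ℤ) (hn : ¬ (p : ℤ) ∣ n) :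
    IsU V (n : κ) := by
  refine isU_of_not_nonunit (intCast_mem V n) fun h => ?_
  have hcop : IsCoprime (p : ℤ) n :=
    (Nat.prime_iff_prime_int.1 hp).coprime_iff_not_dvd.2 hn
  obtain ⟨u, w, huw⟩ := hcop
  have h1 : ((u * p + w * n : ℤ) : κ) = 1 := by rw [huw, Int.cast_one]
  have h2 : (1 : κ) ∈ V.nonunits := by
    rw [← h1, Int.cast_add, Int.cast_mul, Int.cast_mul, Int.cast_natCast]
    exact non_add (non_mul (intCast_mem V u) hpV) (non_mul (intCast_mem V w) h)
  exact isU_one.not_nonunit h2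

theorem dvd_of_non (hp : p.Prime) (hpV : (p : κ) ∈ V.nonunits) (n : ℤ) (hn : (n : κ) ∈ V.nonunits) :
    (p : ℤ) ∣ n := by
  by_contra h
  exact (isU_int hp hpV n h).not_nonunit hn

/-- an `ℓ`-th root of `t` is not fixed by a Frobenius element -/
theorem frob_moves {k : Type} [Field k] [Algebra k κ] (hp : p.Prime) (hpV : (p : κ) ∈ V.nonunits)
    {ℓ f : ℕ} (hℓ : ℓ.Prime) (t : ℤ) (hNR : NR ℓ t p) (hf : ¬ ℓ ∣ f) (σ : κ ≃ₐ[k] κ)
    (hσ : Fro V (p ^ f) σ) (c : κ) (hc : c ^ ℓ = t) : σ c ≠ c := by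
  intro hfix
  have hpf : Fact p.Prime := ⟨hp⟩
  obtain ⟨h0, h1, h2⟩ := hNR
  have hpt : ¬ (p : ℤ) ∣ t := by
    intro h
    apply h0
    rwa [ZMod.intCast_zmod_eq_zero_iff_dvd]
  have hcU : IsU V c := isU_of_pow hℓ.pos (by rw [hc]; exact isU_int hp hpV t hpt)
  obtain ⟨h3, h4⟩ := pow_residue hℓ (t : ZMod p) h0 h1 h2 hf
  have h5 := hσ.2 c hcU.2.1
  rw [hfix] at h5
  have hq : 1 ≤ p ^ f := Nat.one_le_pow _ _ hp.pos
  have h6 : c - c ^ (p ^ f) = c * (1 - c ^ (p ^ f - 1)) := by
    rw [mul_sub, mul_one, ← pow_succ', Nat.sub_add_cancel hq]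
  rw [h6] at h5
  have h7 := non_of_isU_mul hcU h5
  obtain ⟨s, hs⟩ := h3
  have h8 : (p ^ f - 1) / ℓ = s := by
    rw [hs]
    exact Nat.mul_div_cancel_left s hℓ.pos
  rw [h8] at h4
  rw [hs, pow_mul, hc] at h7
  have h9 : (((1 - t ^ s : ℤ)) : κ) ∈ V.nonunits := by
    push_cast
    exact h7
  have h10 := dvd_of_non hp hpV _ h9
  apply h4
  have h11 : (((1 - t ^ s : ℤ)) : ZMod p) = 0 := by
    rwa [ZMod.intCast_zmod_eq_zero_iff_dvd]
  push_cast at h11
  exact (sub_eq_zero.1 h11).symm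

end ints

/-- the local ring of `v` has the properties needed (`Pool.Agent.R925.L.nf_data` with the number of
elements of the residue field) -/
theorem nf_data2 {K : Type} [Field K] [NumberField K] (v : HeightOneSpectrum (𝓞 K)) (ℓ n : ℕ)
    (hn : 0 < n)
    (hℓ : (ℓ : 𝓞 K) ∉ v.asIdeal) (g : (𝓞 K)[X]) (hlc : g.leadingCoeff ∉ v.asIdeal)
    (hs : ((expand (𝓞 K) n g).map (Ideal.Quotient.mk v.asIdeal)).Separable)
    (b : 𝓞 K) (r : ℕ) (hb : b ∈ v.asIdeal ^ r) (hb' : b ∉ v.asIdeal ^ (r + 1)) :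
    ∃ (A : Type) (_ : CommRing A) (_ : IsDomain A) (_ : IsDiscreteValuationRing A)
      (_ : Algebra A K), Finite (IsLocalRing.ResidueField A) ∧
      Nat.card (IsLocalRing.ResidueField A) = Nat.card (𝓞 K ⧸ v.asIdeal) ∧ IsFractionRing A K ∧
      (∀ c ∈ v.asIdeal, ∃ a ∈ IsLocalRing.maximalIdeal A, algebraMap A K a = algebraMap (𝓞 K) K c) ∧
      IsUnit (ℓ : A) ∧ (∃ f : A[X], f.map (algebraMap A K) = g.map (algebraMap (𝓞 K) K) ∧
        (expand A n f).natDegree = (expand (𝓞 K) n g).natDegree ∧ IsUnit f.leadingCoeff ∧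
        ((expand A n f).map (IsLocalRing.residue A)).Separable) ∧
      (∃ ϖ t : A, Irreducible ϖ ∧ IsUnit t ∧
          algebraMap (𝓞 K) K b = algebraMap A K t * algebraMap A K ϖ ^ (r : ℤ)) := by
  classical
  have hvm : v.asIdeal.IsMaximal := v.isMaximal
  have hvp : v.asIdeal.IsPrime := v.isPrime
  have hle : v.asIdeal.primeCompl ≤ nonZeroDivisors (𝓞 K) := v.asIdeal.primeCompl_le_nonZeroDivisors
  let A := Localization.subalgebra.ofField K v.asIdeal.primeCompl hle
  have hloc : IsLocalization.AtPrime A v.asIdeal :=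
    Localization.subalgebra.isLocalization_ofField K v.asIdeal.primeCompl hle
  have hdvr : IsDiscreteValuationRing A :=
    IsLocalization.AtPrime.isDiscreteValuationRing_of_dedekind_domain (𝓞 K) v.ne_bot A
  have hfr : IsFractionRing A K := inferInstance
  have hunit : ∀ c : 𝓞 K, c ∉ v.asIdeal → IsUnit (algebraMap (𝓞 K) A c) := fun c hc =>
    (IsLocalization.AtPrime.isUnit_to_map_iff A v.asIdeal c).2 hc
  let e : (𝓞 K ⧸ v.asIdeal) ≃+* IsLocalRing.ResidueField A :=
    IsLocalization.AtPrime.equivQuotMaximalIdeal v.asIdeal A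
  have hcomp : (IsLocalRing.residue A).comp (algebraMap (𝓞 K) A) =
      (e : (𝓞 K ⧸ v.asIdeal) →+* IsLocalRing.ResidueField A).comp
        (Ideal.Quotient.mk v.asIdeal) := by
    ext c
    rfl
  have hcompK : (algebraMap A K).comp (algebraMap (𝓞 K) A) = algebraMap (𝓞 K) K := by
    ext c
    rfl
  have hfin : Finite (IsLocalRing.ResidueField A) := by
    have h1 : Finite (𝓞 K ⧸ v.asIdeal) := Ideal.finiteQuotientOfFreeOfNeBot _ v.ne_bot
    exact Finite.of_equiv _ e.toEquiv
  have hlcA0 : algebraMap (𝓞 K) A g.leadingCoeff ≠ 0 := (hunit _ hlc).ne_zero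
  have hexp : expand A n (g.map (algebraMap (𝓞 K) A)) =
      (expand (𝓞 K) n g).map (algebraMap (𝓞 K) A) := (map_expand).symm
  have hmapres : ((expand (𝓞 K) n g).map (algebraMap (𝓞 K) A)).map (IsLocalRing.residue A) =
      ((expand (𝓞 K) n g).map (Ideal.Quotient.mk v.asIdeal)).map
        (e : (𝓞 K ⧸ v.asIdeal) →+* IsLocalRing.ResidueField A) := by
    rw [Polynomial.map_map, hcomp, ← Polynomial.map_map]
  have hpow : ∀ (b : 𝓞 K) (m : ℕ), b ∈ v.asIdeal ^ m ↔ algebraMap (𝓞 K) A b ∈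
      IsLocalRing.maximalIdeal A ^ m := by
    intro b m
    rw [← IsLocalization.AtPrime.under_maximalIdeal_pow v.asIdeal A]
    rfl
  refine ⟨A, inferInstance, inferInstance, hdvr, inferInstance, hfin,
    (Nat.card_congr e.toEquiv).symm, hfr, ?_, ?_,
    ⟨g.map (algebraMap (𝓞 K) A), ?_, ?_, ?_, ?_⟩, ?_⟩
  · intro c hc
    refine ⟨algebraMap (𝓞 K) A c, ?_, rfl⟩
    have h1 := (hpow c 1).1 (by rwa [pow_one])
    rwa [pow_one] at h1
  · have h3 := hunit ℓ hℓ
    rwa [map_natCast] at h3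
  · rw [Polynomial.map_map, hcompK]
  · rw [natDegree_expand, natDegree_expand, natDegree_map_of_leadingCoeff_ne_zero _ hlcA0]
  · rw [leadingCoeff_map_of_leadingCoeff_ne_zero _ hlcA0]
    exact hunit _ hlc
  · rw [hexp, hmapres]
    exact hs.map
  · obtain ⟨ϖ, hϖ⟩ := IsDiscreteValuationRing.exists_irreducible A
    have hb0 : algebraMap (𝓞 K) A b ≠ 0 := by
      intro h
      apply hb'
      rw [hpow, h]
      exact zero_mem _
    obtain ⟨j, u, hj⟩ := IsDiscreteValuationRing.eq_unit_mul_pow_irreducible hb0 hϖ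
    have hdvd : ∀ m : ℕ, b ∈ v.asIdeal ^ m ↔ m ≤ j := by
      intro m
      rw [hpow, hϖ.maximalIdeal_eq, Ideal.span_singleton_pow, Ideal.mem_span_singleton, hj,
        (Units.isUnit u).dvd_mul_left, pow_dvd_pow_iff hϖ.ne_zero hϖ.not_isUnit]
    have hjn : j = r := by
      rw [hdvd] at hb hb'
      omega
    refine ⟨ϖ, u, hϖ, u.isUnit, ?_⟩
    rw [← hcompK, RingHom.comp_apply, hj, map_mul, map_pow, hjn, zpow_natCast]

section const

variable {k F Ω : Type} [Field k] [Field F] [Field Ω] [Algebra k F] [Algebra F Ω] [Algebra k Ω]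
  [IsScalarTower k F Ω] {N : IntermediateField F Ω} {W : ValuationSubring N}

/-- powers of congruent elements are congruent -/
theorem non_pow {M : Type} [Field M] {W : ValuationSubring M} {x y : M} (hx : x ∈ W) (hy : y ∈ W)
    (h : x - y ∈ W.nonunits) (n : ℕ) : x ^ n - y ^ n ∈ W.nonunits := by
  induction n with
  | zero =>
    rw [pow_zero, pow_zero, sub_self]
    exact nonunits_iff.2 ⟨zero_mem _, Or.inl rfl⟩
  | succ n ih =>
    have h1 : x ^ (n + 1) - y ^ (n + 1) = x * (x ^ n - y ^ n) + y ^ n * (x - y) := by ring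
    rw [h1]
    exact non_add (non_mul hx ih) (non_mul (pow_mem hy n) h)

/-- a function `z` on the curve with `b z ^ ℓ ≡ t` at a place where the constants are known -/
theorem exists_const (hW : ∀ c : k, algebraMap F N (algebraMap k F c) ∈ W)
    {P : algebraicClosure k Ω → Prop}
    (hres : ∀ z : F, algebraMap F N z ∈ W → ∃ c : algebraicClosure k Ω, P c ∧
      ∃ z' ∈ W.nonunits, (z' : Ω) = algebraMap F Ω z - c)
    {ℓ : ℕ} (hℓ : 0 < ℓ) (b t : k) (hb : b ≠ 0) (z : F)
    (hz : algebraMap F N (algebraMap k F b * z ^ ℓ - algebraMap k F t) ∈ W.nonunits) :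
    ∃ c : algebraicClosure k Ω, P c ∧
      algebraMap k (algebraicClosure k Ω) b * c ^ ℓ = algebraMap k (algebraicClosure k Ω) t := by
  have hbW : algebraMap F N (algebraMap k F b) ∈ W := hW b
  have hzW : algebraMap F N z ∈ W := by
    have h1 : algebraMap F N (algebraMap k F b * z ^ ℓ) ∈ W := by
      have h2 := add_mem (non_mem hz) (hW t)
      rwa [← map_add, sub_add_cancel] at h2
    have h2 : (algebraMap F N z) ^ ℓ ∈ W := by
      have h3 := mul_mem (hW b⁻¹) h1
      rw [← map_mul, ← mul_assoc, ← map_mul, inv_mul_cancel₀ hb, map_one, one_mul, map_pow] at h3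
      exact h3
    rcases W.mem_or_inv_mem (algebraMap F N z) with h3 | h3
    · exact h3
    · by_cases hy0 : algebraMap F N z = 0
      · rw [hy0]; exact zero_mem _
      have h4 : algebraMap F N z = ((algebraMap F N z)⁻¹) ^ (ℓ - 1) * (algebraMap F N z) ^ ℓ := by
        obtain ⟨m, rfl⟩ : ∃ m, ℓ = m + 1 := ⟨ℓ - 1, by omega⟩
        rw [Nat.add_sub_cancel, pow_succ, inv_pow, inv_mul_cancel_left₀ (pow_ne_zero _ hy0)]
      rw [h4]
      exact mul_mem (pow_mem h3 _) h2
  obtain ⟨c, hP, z', hz', hzc⟩ := hres z hzW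
  refine ⟨c, hP, ?_⟩
  obtain ⟨cN, hcN⟩ : ∃ cN : N, cN = algebraMap F N z - z' := ⟨_, rfl⟩
  have h3 : (cN : Ω) = (c : Ω) := by
    rw [hcN]
    change algebraMap F Ω z - (z' : Ω) = _
    rw [hzc]
    ring
  have h4 : cN ∈ W := by
    rw [hcN]
    exact sub_mem hzW (non_mem hz')
  have h5 : cN - algebraMap F N z ∈ W.nonunits := by
    have : cN - algebraMap F N z = - z' := by rw [hcN]; ring
    rw [this]
    exact non_neg hz'
  have h6 : algebraMap F N (algebraMap k F b) * cN ^ ℓ - algebraMap F N (algebraMap k F t) ∈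
      W.nonunits := by
    have h7 := non_add (non_mul hbW (non_pow h4 hzW h5 ℓ)) hz
    have h8 : algebraMap F N (algebraMap k F b) * (cN ^ ℓ - algebraMap F N z ^ ℓ) +
        algebraMap F N (algebraMap k F b * z ^ ℓ - algebraMap k F t) =
        algebraMap F N (algebraMap k F b) * cN ^ ℓ - algebraMap F N (algebraMap k F t) := by
      rw [map_sub, map_mul, map_pow]
      ring
    rwa [h8] at h7
  have h7 := const_non_N N W hW (algebraMap k (algebraicClosure k Ω) b * c ^ ℓ -
    algebraMap k (algebraicClosure k Ω) t) _ (by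
      change algebraMap F Ω (algebraMap k F b) * (cN : Ω) ^ ℓ - algebraMap F Ω (algebraMap k F t) =
        algebraMap k Ω b * (c : Ω) ^ ℓ - algebraMap k Ω t
      rw [h3, ← IsScalarTower.algebraMap_apply, ← IsScalarTower.algebraMap_apply]) h6
  exact sub_eq_zero.1 h7

end const

end Pool.Agent.N680.TH
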