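import Pool.Agent.N680.TH.Loc

/-! # A local obstruction against sections of twists by rotations: the theorem -/

set_option autoImplicit false
set_option linter.all false

open Polynomial NumberField IsDedekindDomain

namespace Pool.Agent.N680.TH

open Pool.Agent.Y157.PS Pool.Agent.R925.L

section poly

variable {k F Ω : Type} [Field k] [Field F] [Field Ω] [Algebra k F] [Algebra F Ω] [Algebra k Ω]
  [IsScalarTower k F Ω] {N : IntermediateField F Ω} {W : ValuationSubring N}

theorem aeval_mem (hW : ∀ c : k, algebraMap F N (algebraMap k F c) ∈ W) (G : k[X]) (T : F)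
    (hT : algebraMap F N T ∈ W) : algebraMap F N (aeval T G) ∈ W := by
  rw [aeval_eq_sum_range, map_sum]
  refine sum_mem fun i _ => ?_
  rw [Algebra.smul_def, map_mul, map_pow]
  exact mul_mem (hW _) (pow_mem hT i)

theorem poly_non (hW : ∀ c : k, algebraMap F N (algebraMap k F c) ∈ W) (G : k[X]) (T : F)
    (hT : algebraMap F N T ∈ W.nonunits) :
    algebraMap F N (aeval T G - algebraMap k F (G.coeff 0)) ∈ W.nonunits := by
  have h1 : aeval T G - algebraMap k F (G.coeff 0) = aeval T G.divX * T := by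
    conv_lhs => rw [← G.divX_mul_X_add]
    rw [map_add, map_mul, aeval_X, aeval_C]
    simp
  rw [h1, map_mul]
  exact non_mul (aeval_mem hW _ T (non_mem hT)) hT

/-- the leading term at infinity -/
theorem poly_inf (hW : ∀ c : k, algebraMap F N (algebraMap k F c) ∈ W) (G : k[X]) (T : F)
    (hT0 : T ≠ 0) (hT : algebraMap F N T⁻¹ ∈ W.nonunits) :
    algebraMap F N (aeval T G * (T⁻¹) ^ G.natDegree - algebraMap k F G.leadingCoeff) ∈
      W.nonunits := by
  have h1 := poly_non hW G.reverse T⁻¹ hT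
  rw [coeff_zero_reverse] at h1
  have h2 : aeval T G * (T⁻¹) ^ G.natDegree = aeval T⁻¹ G.reverse := by
    have h3 := eval₂_reverse_mul_pow (algebraMap k F) (Units.mk0 T hT0) G
    simp only [Units.val_mk0, Units.val_inv_eq_inv_val] at h3
    rw [aeval_def, ← h3, mul_assoc, ← mul_pow, mul_inv_cancel₀ hT0, one_pow, mul_one]
    rfl
  rwa [h2]

end poly

theorem isU_zpow_eq {κ : Type} [Field κ] {V : ValuationSubring κ} {ϖ : κ} (h0 : ϖ ≠ 0)
    (hϖ : ϖ ∈ V.nonunits) (n : ℤ) (h : IsU V (ϖ ^ n)) : n = 0 := by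
  have key : ∀ m : ℕ, IsU V (ϖ ^ (m : ℤ)) → m = 0 := by
    intro m hm
    by_contra hne
    obtain ⟨m', rfl⟩ : ∃ m', m = m' + 1 := ⟨m - 1, by omega⟩
    apply hm.not_nonunit
    rw [zpow_natCast, pow_succ]
    exact non_mul (pow_mem (non_mem hϖ) _) hϖ
  rcases Int.eq_nat_or_neg n with ⟨m, hm | hm⟩
  · rw [hm] at h ⊢
    exact_mod_cast key m h
  · rw [hm] at h ⊢
    have h1 := h.inv
    rw [← zpow_neg, neg_neg] at h1
    have := key m h1
    rw [this]
    simp

/-- the conditions on the prime `p` -/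
structure GoodP (ℓ j : ℕ) (g : ℤ[X]) (b : ℤ) (p : ℕ) : Prop where
  pr : p.Prime
  pl : ¬ (p : ℤ) ∣ ℓ
  lc : ¬ (p : ℤ) ∣ g.leadingCoeff
  pb : ¬ (p : ℤ) ∣ b
  sep : ∀ (k : Type) [Field k], (p : k) = 0 →
    ((expand ℤ (ℓ ^ j) g).map (Int.castRingHom k)).Separable
  nr0 : NR ℓ (g.coeff 0 * b ^ (ℓ - 1)) p
  nr1 : ℓ ∣ g.natDegree → NR ℓ (g.leadingCoeff * b ^ (ℓ - 1)) p

section main

variable {K : Type} [Field K] [NumberField K] {F Ω : Type} [Field F] [Field Ω] [Algebra K F]
  [Algebra F Ω] [Algebra K Ω] [IsScalarTower K F Ω] [IsAlgClosed Ω] [Algebra.IsAlgebraic F Ω]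

theorem no_section {ℓ j p : ℕ} [hℓF : Fact ℓ.Prime] (hj : 1 ≤ j) (g : ℤ[X]) (b : ℤ)
    (h3 : 3 ≤ (expand ℤ (ℓ ^ j) g).natDegree) (hg : GoodP ℓ j g b p)
    (hK : ¬ ℓ ∣ Module.finrank ℚ K) (a : ℤ) (ha : (p : ℤ) ∣ a) (ha2 : ¬ (p : ℤ) ^ 2 ∣ a)
    (x y : F) (hx : Transcendental K x)
    (hxy : algebraMap K F (b : K) * y ^ ℓ =
      aeval (algebraMap K F (a : K) * x ^ (ℓ ^ j)) (g.map (Int.castRingHom K)))
    (hF : IntermediateField.adjoin K {x, y} = (⊤ : IntermediateField K F))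
    (M : IntermediateField F Ω) (hM : geomPro ℓ K F Ω ≤ M)
    (S : (algebraicClosure K Ω ≃ₐ[K] algebraicClosure K Ω) →* (M ≃ₐ[F] M)) (hcont : Continuous S)
    (hcompat : ∀ σ (c : algebraicClosure K Ω) (z : M), (z : Ω) = (c : Ω) →
      (S σ z : Ω) = (σ c : Ω)) : False := by
  classical
  have hℓ : ℓ.Prime := hℓF.out
  have hp := hg.pr
  have hm : 0 < ℓ ^ j := pow_pos hℓ.pos j
  obtain ⟨v, e, f, he, hf, hpv, hav, hav', hcard⟩ := exists_prime K hK hp a ha ha2
  have hvm : v.asIdeal.IsMaximal := v.isMaximal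
  have hvp : v.asIdeal.IsPrime := v.isPrime
  have hnot : ∀ n : ℤ, ¬ (p : ℤ) ∣ n → (n : 𝓞 K) ∉ v.asIdeal := by
    intro n hn h
    obtain ⟨u, w, huw⟩ := (Nat.prime_iff_prime_int.1 hp).coprime_iff_not_dvd.2 hn
    apply hvp.ne_top
    rw [Ideal.eq_top_iff_one]
    have h1 : ((u * p + w * n : ℤ) : 𝓞 K) = 1 := by rw [huw, Int.cast_one]
    rw [← h1]
    push_cast
    exact v.asIdeal.add_mem (v.asIdeal.mul_mem_left _ hpv) (v.asIdeal.mul_mem_left _ h)
  obtain ⟨gO, hgO⟩ : ∃ gO : (𝓞 K)[X], gO = g.map (Int.castRingHom (𝓞 K)) := ⟨_, rfl⟩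
  have hinjO : Function.Injective (Int.castRingHom (𝓞 K)) := RingHom.injective_int _
  have hlcO : gO.leadingCoeff = (g.leadingCoeff : 𝓞 K) := by
    rw [hgO, leadingCoeff_map_of_injective hinjO]
    rfl
  have hsO : ((expand (𝓞 K) (ℓ ^ j) gO).map (Ideal.Quotient.mk v.asIdeal)).Separable := by
    let _ : Field (𝓞 K ⧸ v.asIdeal) := Ideal.Quotient.field v.asIdeal
    have h1 := hg.sep (𝓞 K ⧸ v.asIdeal) (by
      rw [← map_natCast (Ideal.Quotient.mk v.asIdeal)]
      exact Ideal.Quotient.eq_zero_iff_mem.2 hpv)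
    have h2 : (expand (𝓞 K) (ℓ ^ j) gO).map (Ideal.Quotient.mk v.asIdeal) =
        (expand ℤ (ℓ ^ j) g).map (Int.castRingHom (𝓞 K ⧸ v.asIdeal)) := by
      rw [hgO, ← map_expand, Polynomial.map_map]
      congr 1
    rw [h2]
    exact h1
  have hdegO : (expand (𝓞 K) (ℓ ^ j) gO).natDegree = (expand ℤ (ℓ ^ j) g).natDegree := by
    rw [natDegree_expand, natDegree_expand, hgO, natDegree_map_eq_of_injective hinjO]
  have hgK : gO.map (algebraMap (𝓞 K) K) = g.map (Int.castRingHom K) := by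
    rw [hgO, Polynomial.map_map]
    congr 1
  obtain ⟨A, _, _, _, _, hfin, hcardA, hfr, hmax, hℓA, ⟨fA, hfg, hdeg, hlcA, hsA⟩,
    ⟨ϖ, t, hϖ, ht, hat⟩⟩ :=
    nf_data2 v ℓ (ℓ ^ j) hm (by
      have := hnot ℓ hg.pl
      rwa [Int.cast_natCast] at this) gO (by rw [hlcO]; exact hnot _ hg.lc) hsO (a : 𝓞 K) e hav hav'
  rw [hcard] at hcardA
  rw [map_intCast] at hat
  let _ : Algebra A (algebraicClosure K Ω) := ((algebraMap K (algebraicClosure K Ω)).comp (algebraMap A K)).toAlgebra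
  have htow : IsScalarTower A K (algebraicClosure K Ω) := .of_algebraMap_eq fun _ => rfl
  have hcl : IsAlgClosure K (algebraicClosure K Ω) := inferInstance
  obtain ⟨V, hV, hloc⟩ := IsLocalRing.exists_factor_valuationRing (algebraMap A (algebraicClosure K Ω))
  have hVm : ∀ c ∈ IsLocalRing.maximalIdeal A, algebraMap A (algebraicClosure K Ω) c ∈ V.nonunits := by
    intro c hc
    by_contra hcon
    apply (IsLocalRing.mem_maximalIdeal c).1 hc
    have h1 : ¬ (⟨algebraMap A (algebraicClosure K Ω) c, hV c⟩ : V) ∈ IsLocalRing.maximalIdeal V := fun h =>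
      hcon (V.coe_mem_nonunits_iff (a := ⟨algebraMap A (algebraicClosure K Ω) c, hV c⟩) |>.2 h)
    rw [IsLocalRing.mem_maximalIdeal, mem_nonunits_iff, not_not] at h1
    exact hloc.map_nonunit c h1
  have hpV : (p : (algebraicClosure K Ω)) ∈ V.nonunits := by
    obtain ⟨c, hc, hc2⟩ := hmax _ hpv
    have h1 := hVm c hc
    have h2 : algebraMap A (algebraicClosure K Ω) c = (p : (algebraicClosure K Ω)) := by
      rw [IsScalarTower.algebraMap_apply A K (algebraicClosure K Ω), hc2, map_natCast, map_natCast]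
    rwa [h2] at h1
  obtain ⟨σ, hσ⟩ := Pool.Agent.Y183.PS.fro A K (algebraicClosure K Ω) V hV hVm
  rw [hcardA] at hσ
  have hb0 : b ≠ 0 := by
    intro h
    apply hg.pb
    rw [h]
    exact dvd_zero _
  have hbK : (b : K) ≠ 0 := Int.cast_ne_zero.2 hb0
  have ha0 : a ≠ 0 := by
    intro h
    apply ha2
    rw [h]
    exact dvd_zero _
  have haK : (a : K) ≠ 0 := Int.cast_ne_zero.2 ha0
  obtain ⟨W, ⟨⟨hW1, hW2, hW3⟩, hW4⟩, -⟩ :=
    numRM (A := A) V hV hVm hℓA hj fA hlcA hsA (by rw [hdeg, hdegO]; exact h3) ϖ hϖ (a : K) (b : K)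
      (e : ℤ) (fun h => he (by
        have h1 : ℓ ^ j ∣ e := by exact_mod_cast h
        exact (dvd_pow_self ℓ (by omega)).trans h1)) t ht hat hbK x y hx
      (by rw [hxy, hfg, hgK]) hF M hM S hcont hcompat
  have hx0 : x ≠ 0 := by
    rintro rfl
    exact hx isAlgebraic_zero
  -- constants
  have hcb : algebraMap K (algebraicClosure K Ω) (b : K) = (b : (algebraicClosure K Ω)) := map_intCast _ _
  have hσb : σ (b : (algebraicClosure K Ω)) = (b : (algebraicClosure K Ω)) := map_intCast σ b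
  have hσa : σ (a : (algebraicClosure K Ω)) = (a : (algebraicClosure K Ω)) := map_intCast σ a
  have haκ : (a : (algebraicClosure K Ω)) ≠ 0 := Int.cast_ne_zero.2 ha0
  have hbκ : (b : (algebraicClosure K Ω)) ≠ 0 := Int.cast_ne_zero.2 hb0
  have hinjK : Function.Injective (Int.castRingHom K) := RingHom.injective_int _
  have hres : ∀ z : F, algebraMap F M z ∈ W → ∃ c : (algebraicClosure K Ω),
      (∀ σ : (algebraicClosure K Ω) ≃ₐ[K] (algebraicClosure K Ω), Dec V σ → σ c = c) ∧ ∃ z' ∈ W.nonunits, (z' : Ω) = algebraMap F Ω z - c :=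
    hW3
  rcases hW2 with hxW | hxW
  · -- the place is above `x = 0`
    have hT : algebraMap F M (algebraMap K F (a : K) * x ^ (ℓ ^ j)) ∈ W.nonunits := by
      rw [map_mul, map_pow]
      refine non_mul (hW1 _) ?_
      obtain ⟨m', hm'⟩ : ∃ m', ℓ ^ j = m' + 1 := ⟨ℓ ^ j - 1, by omega⟩
      rw [hm', pow_succ]
      exact non_mul (pow_mem (non_mem hxW) _) hxW
    have h1 := poly_non hW1 (g.map (Int.castRingHom K)) _ hT
    rw [← hxy] at h1
    obtain ⟨c, hP, hc⟩ := exists_const hW1 hres hℓ.pos (b : K)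
      ((g.map (Int.castRingHom K)).coeff 0) hbK y h1
    refine frob_moves hp hpV hℓ _ hg.nr0 hf σ hσ ((b : (algebraicClosure K Ω)) * c) ?_ ?_
    · have h2 : algebraMap K (algebraicClosure K Ω) ((g.map (Int.castRingHom K)).coeff 0) = (g.coeff 0 : (algebraicClosure K Ω)) := by
        rw [coeff_map, eq_intCast, map_intCast]
      rw [hcb, h2] at hc
      obtain ⟨l', hl'⟩ : ∃ l', ℓ = l' + 1 := ⟨ℓ - 1, by have := hℓ.pos; omega⟩
      rw [hl'] at hc ⊢
      rw [Nat.add_sub_cancel]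
      push_cast
      rw [← hc]
      ring
    · rw [map_mul, hσb, hP σ hσ.1]
  · -- the place is above `x = ∞`
    set G := g.map (Int.castRingHom K) with hG
    set D := g.natDegree with hD
    have hGD : G.natDegree = D := natDegree_map_eq_of_injective hinjK g
    have hGl : G.leadingCoeff = (g.leadingCoeff : K) := by
      rw [hG, leadingCoeff_map_of_injective hinjK]
      rfl
    set T : F := algebraMap K F (a : K) * x ^ (ℓ ^ j) with hT
    have haF : algebraMap K F (a : K) ≠ 0 := by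
      rw [Ne, map_eq_zero_iff _ (algebraMap K F).injective]
      exact haK
    have hT0 : T ≠ 0 := mul_ne_zero haF (pow_ne_zero _ hx0)
    have hTi : algebraMap F M T⁻¹ ∈ W.nonunits := by
      rw [hT, mul_inv, ← map_inv₀, ← inv_pow, map_mul, map_pow]
      refine non_mul (hW1 _) ?_
      obtain ⟨m', hm'⟩ : ∃ m', ℓ ^ j = m' + 1 := ⟨ℓ ^ j - 1, by omega⟩
      rw [hm', pow_succ]
      exact non_mul (pow_mem (non_mem hxW) _) hxW
    have h1 := poly_inf hW1 G T hT0 hTi
    rw [← hxy, hGD, hGl] at h1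
    obtain ⟨j', rfl⟩ : ∃ j', j = j' + 1 := ⟨j - 1, by omega⟩
    obtain ⟨z, hz⟩ : ∃ z : F, z = y * (x⁻¹) ^ (ℓ ^ j' * D) := ⟨_, rfl⟩
    have h2 : algebraMap K F (b : K) * z ^ ℓ - algebraMap K F ((a : K) ^ D * (g.leadingCoeff : K)) =
        algebraMap K F ((a : K) ^ D) * (algebraMap K F (b : K) * y ^ ℓ * (T⁻¹) ^ D -
          algebraMap K F (g.leadingCoeff : K)) := by
      have e1 : z ^ ℓ = y ^ ℓ * (x⁻¹) ^ (ℓ ^ (j' + 1) * D) := by
        rw [hz, mul_pow, ← pow_mul]
        congr 2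
        ring
      have e2 : (T⁻¹) ^ D = (algebraMap K F (a : K))⁻¹ ^ D * (x⁻¹) ^ (ℓ ^ (j' + 1) * D) := by
        rw [hT, mul_inv, mul_pow, ← inv_pow, ← pow_mul]
      rw [e1, e2, mul_sub, map_mul, map_pow]
      have e3 : algebraMap K F (a : K) ^ D * ((algebraMap K F (a : K))⁻¹ ^ D) = 1 := by
        rw [← mul_pow, mul_inv_cancel₀ haF, one_pow]
      linear_combination (- (algebraMap K F (b : K) * y ^ ℓ * (x⁻¹) ^ (ℓ ^ (j' + 1) * D))) * e3
    have h4 : algebraMap F M (algebraMap K F (b : K) * z ^ ℓ -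
        algebraMap K F ((a : K) ^ D * (g.leadingCoeff : K))) ∈ W.nonunits := by
      rw [h2, map_mul]
      exact non_mul (hW1 _) h1
    obtain ⟨c, hP, hc⟩ := exists_const hW1 hres hℓ.pos (b : K) _ hbK z h4
    have h5 : algebraMap K (algebraicClosure K Ω) ((a : K) ^ D * (g.leadingCoeff : K)) =
        (a : (algebraicClosure K Ω)) ^ D * (g.leadingCoeff : (algebraicClosure K Ω)) := by
      rw [map_mul, map_pow, map_intCast, map_intCast]
    rw [hcb, h5] at hc
    by_cases hdvd : ℓ ∣ D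
    · obtain ⟨D', hD'⟩ := hdvd
      refine frob_moves hp hpV hℓ _ (hg.nr1 ⟨D', hD'⟩) hf σ hσ ((b : (algebraicClosure K Ω)) * c / (a : (algebraicClosure K Ω)) ^ D') ?_ ?_
      · rw [div_pow, mul_pow, ← pow_mul, mul_comm D' ℓ, ← hD',
          div_eq_iff (pow_ne_zero _ haκ)]
        obtain ⟨l', hl'⟩ : ∃ l', ℓ = l' + 1 := ⟨ℓ - 1, by have := hℓ.pos; omega⟩
        rw [hl'] at hc ⊢
        rw [Nat.add_sub_cancel]
        push_cast
        linear_combination (b : (algebraicClosure K Ω)) ^ l' * hc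
      · rw [map_div₀, map_mul, map_pow, hσb, hσa, hP σ hσ.1]
    · -- ramification
      have hlc0 : (g.leadingCoeff : (algebraicClosure K Ω)) ≠ 0 := by
        rw [Ne, Int.cast_eq_zero]
        intro h
        apply hg.lc
        rw [h]
        exact dvd_zero _
      have hc0 : c ≠ 0 := by
        rintro rfl
        rw [zero_pow hℓ.pos.ne', mul_zero] at hc
        exact (mul_ne_zero (pow_ne_zero _ haκ) hlc0) hc.symm
      obtain ⟨n, hn⟩ := a_ine A K (algebraicClosure K Ω) V ϖ hV hVm hϖ c hc0 fun σ hσ => hP σ hσ.1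
      have hϖV : algebraMap A (algebraicClosure K Ω) ϖ ∈ V.nonunits := hVm _ (by
        rw [IsLocalRing.mem_maximalIdeal]
        exact hϖ.not_isUnit)
      have hinjA : Function.Injective (algebraMap A (algebraicClosure K Ω)) := by
        rw [IsScalarTower.algebraMap_eq A K (algebraicClosure K Ω)]
        exact (algebraMap K (algebraicClosure K Ω)).injective.comp (IsFractionRing.injective A K)
      have hϖ0 : algebraMap A (algebraicClosure K Ω) ϖ ≠ 0 := by
        intro h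
        exact hϖ.ne_zero (hinjA (by rw [h, map_zero]))
      have hau : (a : (algebraicClosure K Ω)) = algebraMap A (algebraicClosure K Ω) t * algebraMap A (algebraicClosure K Ω) ϖ ^ (e : ℤ) := by
        have h6 := congrArg (algebraMap K (algebraicClosure K Ω)) hat
        rw [map_intCast, map_mul, map_zpow₀, ← IsScalarTower.algebraMap_apply,
          ← IsScalarTower.algebraMap_apply] at h6
        exact h6
      have htU : IsU V (algebraMap A (algebraicClosure K Ω) t) := isU_of_unit (V := V) hV ht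
      have hbU : IsU V (b : (algebraicClosure K Ω)) := isU_int hp hpV b hg.pb
      have hlU : IsU V (g.leadingCoeff : (algebraicClosure K Ω)) := isU_int hp hpV _ hg.lc
      have hU : IsU V ((algebraMap A (algebraicClosure K Ω) t) ^ D * (g.leadingCoeff : (algebraicClosure K Ω)) / (b : (algebraicClosure K Ω)) /
          (c / algebraMap A (algebraicClosure K Ω) ϖ ^ n) ^ ℓ) :=
        (((isU_pow htU D).mul hlU).div hbU).div (isU_pow hn ℓ)
      have h7 : (algebraMap A (algebraicClosure K Ω) t) ^ D * (g.leadingCoeff : (algebraicClosure K Ω)) / (b : (algebraicClosure K Ω)) /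
          (c / algebraMap A (algebraicClosure K Ω) ϖ ^ n) ^ ℓ = algebraMap A (algebraicClosure K Ω) ϖ ^ (n * ℓ - e * D : ℤ) := by
        rw [zpow_sub₀ hϖ0, zpow_mul, zpow_mul, div_pow, zpow_natCast, zpow_natCast]
        have ht0 : algebraMap A (algebraicClosure K Ω) t ≠ 0 := htU.1
        have hcℓ : c ^ ℓ ≠ 0 := pow_ne_zero _ hc0
        have hc' : c ^ ℓ = (a : (algebraicClosure K Ω)) ^ D * (g.leadingCoeff : (algebraicClosure K Ω)) / (b : (algebraicClosure K Ω)) := by
          rw [eq_div_iff hbκ, mul_comm]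
          exact hc
        rw [hc', hau, mul_pow]
        have h8 : algebraMap A (algebraicClosure K Ω) ϖ ^ n ≠ 0 := zpow_ne_zero _ hϖ0
        have h9 : algebraMap A (algebraicClosure K Ω) ϖ ^ (e : ℤ) ≠ 0 := zpow_ne_zero _ hϖ0
        field_simp
      rw [h7] at hU
      have h8 := isU_zpow_eq hϖ0 hϖV _ hU
      have h9 : (ℓ : ℤ) ∣ ((e * D : ℕ) : ℤ) := ⟨n, by push_cast; linarith⟩
      have h10 : ℓ ∣ e * D := by exact_mod_cast h9
      rcases hℓ.dvd_mul.1 h10 with h11 | h11
      · exact he h11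
      · exact hdvd h11

end main

end Pool.Agent.N680.TH
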